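import Pool.Agent.KS6_80.MS.C

/-!
# Consecutive memory sizes in black-box optimisation: a gap linear in the size of `{0,1}^n`

For all `μ` and `n` there is a class `F` of functions `{0,1}^n → ℝ` with `C_{μ+1}(F) ≤ μ + 2` and
`C_μ(F) ≥ ⌊2^n / (193 (μ + 2))⌋`.
-/

open scoped ENNReal

namespace Pool.Agent.Results.MP_baa74b_lc.ExponentialGap

open Pool.Agent.Results.MP_baa74b_lc.MemorySeparation

/-- For all `μ` and `n` there is a class `F` of functions on `{0,1}^n` whose `(μ+2)`
memory-restricted black-box complexity `C_{μ+1}(F)` is at most `μ + 2` and whose `(μ+1)`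
memory-restricted black-box complexity `C_μ(F)` is at least `⌊2^n / (193 (μ + 2))⌋`. -/
theorem result (μ n : ℕ) : ∃ F : Set ((Fin n → Bool) → ℝ),
    complexity (μ + 1) F ≤ (μ : ℝ≥0∞) + 2 ∧
      ((2 ^ n / (193 * (μ + 2)) : ℕ) : ℝ≥0∞) ≤ complexity μ F :=
  Pool.Agent.KS6_80.MS.main μ n

end Pool.Agent.Results.MP_baa74b_lc.ExponentialGap
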